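import Pool.Agent.TH992.L.UpTail
import Pool.Agent.TH992.L.IoSlow
import Pool.Agent.TH992.L.IoFast
import Pool.Agent.H984R4.HN.Disp
import Pool.Agent.H984R4.HN.FinalH

/-!
Exact tails of the greatest distance of the half-plane exploration path from the origin.
-/

set_option autoImplicit false

namespace Pool.Agent.R965.HT

open H974 Finset H342P H984P H984H MeasureTheory Filter Topology TH992.T TH992.L

/-- probability of an event of the annulus -/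
theorem perc_an {b h ρ : ℤ} (hs : An b h ⊆ (bx ρ).edges) (A : Finset Edg → Prop) :
    perc.real {ω | A (cut ω ρ ∩ An b h)} = P (An b h) A := by
  rw [perc_cut ρ (fun F => A (F ∩ An b h)), ← P_inter (S := An b h) A]
  exact Pr_local hs fun F _ => by rw [inter_assoc, inter_self]

theorem rp {x : ℝ} (hx : 0 ≤ x) (a b : ℝ) : (x ^ a) ^ b = x ^ (a * b) :=
  (Real.rpow_mul hx a b).symm

/-- Lower bound for the upper tail. -/
theorem up_low {C : ℝ} (hC : 0 < C) (hU : TwoUp C (1/4)) : ∃ c B : ℝ, 0 < c ∧ 0 < B ∧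
    ∀ (n : ℕ) (x : ℝ), 1 ≤ n → 1 ≤ x → x ≤ c * (n : ℝ) ^ (3/7 : ℝ) →
      Real.exp (-(B * x ^ (7/3 : ℝ))) ≤
        perc.real {ω | x * (n : ℝ) ^ (4/7 : ℝ) ≤ reach n ω} := by
  obtain ⟨θ, K2, hθ, hK2, hpr⟩ := fast_pr hC hU
  obtain ⟨l, hl, htail⟩ := xn_tail hC hU
  obtain ⟨C3, hC3⟩ : ∃ C3 : ℝ, C3 = 10 + 18 * θ := ⟨_, rfl⟩
  have hC30 : 10 < C3 := by rw [hC3]; linarith
  -- the smallest admissible `K`
  obtain ⟨K0, hK0⟩ : ∃ K0 : ℝ, K0 = 200 + 2 * (2 * K2 * l ^ 8 + 1) := ⟨_, rfl⟩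
  have hl8 : 0 < l ^ 8 := by positivity
  have hK00 : 200 ≤ K0 := by
    rw [hK0]
    have : 0 ≤ 2 * K2 * l ^ 8 + 1 := by positivity
    linarith
  obtain ⟨D, hD⟩ : ∃ D : ℝ, D = max K0 ((8/3 * (2 * C3) ^ (4/7 : ℝ)) ^ (7/3 : ℝ)) := ⟨_, rfl⟩
  have hD0 : K0 ≤ D := by rw [hD]; exact le_max_left _ _
  have hD1 : (8/3 * (2 * C3) ^ (4/7 : ℝ)) ^ (7/3 : ℝ) ≤ D := by rw [hD]; exact le_max_right _ _
  have hDpos : 0 < D := by linarith
  obtain ⟨c, hc⟩ : ∃ c : ℝ, c = (1 / (4 * C3 * D)) ^ (3/7 : ℝ) := ⟨_, rfl⟩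
  have hc0 : 0 < c := by rw [hc]; positivity
  refine ⟨c, 2 * D * (K2 + 1), hc0, by positivity, fun n x hn hx hxn => ?_⟩
  have hn0 : (1:ℝ) ≤ n := by exact_mod_cast hn
  have hx73 : 1 ≤ x ^ (7/3 : ℝ) := Real.one_le_rpow hx (by norm_num)
  obtain ⟨K, hK⟩ : ∃ K : ℕ, K = ⌈D * x ^ (7/3 : ℝ)⌉₊ := ⟨_, rfl⟩
  have hKl : D * x ^ (7/3 : ℝ) ≤ K := by rw [hK]; exact Nat.le_ceil _
  have hKD : D ≤ K := by
    have : D * 1 ≤ D * x ^ (7/3 : ℝ) := mul_le_mul_of_nonneg_left hx73 hDpos.le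
    linarith
  have hKu : (K : ℝ) ≤ 2 * D * x ^ (7/3 : ℝ) := by
    have h1 : (K : ℝ) < D * x ^ (7/3 : ℝ) + 1 := by
      rw [hK]; exact Nat.ceil_lt_add_one (by positivity)
    have h2 : 1 ≤ D * x ^ (7/3 : ℝ) := by nlinarith
    linarith
  have hK200 : (200:ℝ) ≤ K := by linarith
  have hKpos : (0:ℝ) < K := by linarith
  have hK4 : 4 ≤ K := by
    have : (4:ℝ) ≤ K := by linarith
    exact_mod_cast this
  -- the scale
  have hKn : 2 * C3 * K ≤ n := by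
    have h1 : x ^ (7/3 : ℝ) ≤ (c * (n : ℝ) ^ (3/7 : ℝ)) ^ (7/3 : ℝ) :=
      Real.rpow_le_rpow (by linarith) hxn (by norm_num)
    have h2 : (c * (n : ℝ) ^ (3/7 : ℝ)) ^ (7/3 : ℝ) = 1 / (4 * C3 * D) * n := by
      rw [Real.mul_rpow hc0.le (by positivity), hc, rp (by positivity), rp (by positivity)]
      norm_num
    rw [h2] at h1
    calc 2 * C3 * K ≤ 2 * C3 * (2 * D * x ^ (7/3 : ℝ)) :=
          mul_le_mul_of_nonneg_left hKu (by positivity)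
      _ ≤ 2 * C3 * (2 * D * (1 / (4 * C3 * D) * n)) := by gcongr
      _ = n := by field_simp; norm_num
  obtain ⟨y, hy⟩ : ∃ y : ℝ, y = ((n:ℝ) / (2 * C3 * K)) ^ (4/7 : ℝ) := ⟨_, rfl⟩
  have hy1 : 1 ≤ y := by
    rw [hy]
    refine Real.one_le_rpow ?_ (by norm_num)
    rw [le_div_iff₀ (by positivity)]
    linarith
  obtain ⟨a, ha⟩ : ∃ a : ℕ, a = ⌊y⌋₊ := ⟨_, rfl⟩
  have ha1 : 1 ≤ a := by rw [ha]; exact Nat.one_le_floor_iff _ |>.mpr hy1
  have ha1r : (1:ℝ) ≤ a := by exact_mod_cast ha1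
  have hau : (a:ℝ) ≤ y := by rw [ha]; exact Nat.floor_le (by linarith)
  have hal : y / 2 ≤ a := by
    have : y < a + 1 := by rw [ha]; exact Nat.lt_floor_add_one _
    linarith
  have ha74 : (a:ℝ) ^ (7/4 : ℝ) ≤ n / (2 * C3 * K) := by
    calc (a:ℝ) ^ (7/4 : ℝ) ≤ y ^ (7/4 : ℝ) := Real.rpow_le_rpow (by linarith) hau (by norm_num)
      _ = n / (2 * C3 * K) := by
          rw [hy, rp (by positivity)]
          norm_num
  -- the probability
  obtain ⟨ρ, hρ⟩ : ∃ ρ : ℤ, ρ = 4 * (a : ℤ) * K := ⟨_, rfl⟩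
  have haz : (1:ℤ) ≤ a := by exact_mod_cast ha1
  have hKz : (4:ℤ) ≤ K := by exact_mod_cast hK4
  have hs : An (a : ℤ) (K * a : ℕ) ⊆ (bx ρ).edges := by
    refine an_sub ?_ ?_
    · rw [hρ]; nlinarith
    · rw [hρ]; push_cast; nlinarith
  have hP1 : Real.exp (-(K2 * K)) ≤
      perc.real {ω | Fst θ a K (cut ω ρ ∩ An (a : ℤ) (K * a : ℕ))} := by
    rw [perc_an hs]
    exact hpr a K ha1 (by omega)
  have hP2 := htail a K ha1 hKpos.le
  have hsub : {ω | Fst θ a K (cut ω ρ ∩ An (a : ℤ) (K * a : ℕ))} ⊆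
      {ω | x * (n : ℝ) ^ (4/7 : ℝ) ≤ reach n ω} ∪
      {ω | 10 * (K:ℝ) * (a : ℝ) ^ (7/4 : ℝ) ≤ Xn a (cut ω (4 * a))} := by
    intro ω hω
    by_cases hX : 10 * (K:ℝ) * (a : ℝ) ^ (7/4 : ℝ) ≤ Xn a (cut ω (4 * a))
    · exact Or.inr hX
    · left
      push Not at hX
      obtain ⟨T, t1, t2, t3, t4⟩ := fast_det ha1 hK4 (shw_cut hs) hω
      have hTn : T ≤ n := by
        have h1 : (T:ℝ) ≤ C3 * K * (a : ℝ) ^ (7/4 : ℝ) := by
          rw [hC3]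
          nlinarith
        have h2 : C3 * K * (a : ℝ) ^ (7/4 : ℝ) ≤ n := by
          have h3 : C3 * K * (a : ℝ) ^ (7/4 : ℝ) ≤ C3 * K * (n / (2 * C3 * K)) :=
            mul_le_mul_of_nonneg_left ha74 (by positivity)
          have h4 : C3 * K * ((n:ℝ) / (2 * C3 * K)) = n / 2 := by field_simp
          rw [h4] at h3
          linarith
        exact_mod_cast h1.trans h2
      show x * (n : ℝ) ^ (4/7 : ℝ) ≤ reach n ω
      refine le_trans ?_ ((norm_gam_le T ω).trans (reach_mono ω hTn))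
      refine le_trans ?_ t3
      have h5 : 3/8 * (K * y) ≤ (K:ℝ) * a - 1/4 := by
        have h6 : (K:ℝ) * (y / 2) ≤ K * a := mul_le_mul_of_nonneg_left hal hKpos.le
        have h7 : (200:ℝ) ≤ K * y := by nlinarith
        linarith
      refine le_trans ?_ h5
      have h8 : (K:ℝ) * y = (K:ℝ) ^ (3/7 : ℝ) * (n : ℝ) ^ (4/7 : ℝ) / (2 * C3) ^ (4/7 : ℝ) := by
        rw [hy, Real.div_rpow (by positivity) (by positivity),
          Real.mul_rpow (by positivity) hKpos.le]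
        have h9 : (K:ℝ) = (K:ℝ) ^ (3/7 : ℝ) * (K:ℝ) ^ (4/7 : ℝ) := by
          rw [← Real.rpow_add hKpos]
          norm_num
        have p1 : (0:ℝ) < (2 * C3) ^ (4/7 : ℝ) := by positivity
        have p2 : (0:ℝ) < (K:ℝ) ^ (4/7 : ℝ) := by positivity
        nth_rewrite 1 [h9]
        field_simp
      have h10 : 8/3 * (2 * C3) ^ (4/7 : ℝ) * x ≤ (K:ℝ) ^ (3/7 : ℝ) := by
        have h11 : (8/3 * (2 * C3) ^ (4/7 : ℝ) * x) ^ (7/3 : ℝ) ≤ K := by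
          rw [Real.mul_rpow (by positivity) (by linarith)]
          refine le_trans ?_ hKl
          exact mul_le_mul_of_nonneg_right hD1 (by positivity)
        have h12 := Real.rpow_le_rpow (by positivity) h11 (show (0:ℝ) ≤ 3/7 by norm_num)
        rw [rp (by positivity)] at h12
        norm_num at h12
        norm_num
        exact h12
      have p1 : (0:ℝ) < (2 * C3) ^ (4/7 : ℝ) := by positivity
      have p3 : (0:ℝ) < (n : ℝ) ^ (4/7 : ℝ) := by positivity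
      rw [h8, mul_div_assoc', le_div_iff₀ p1]
      calc x * (n : ℝ) ^ (4/7 : ℝ) * (2 * C3) ^ (4/7 : ℝ)
          = 3/8 * ((8/3 * (2 * C3) ^ (4/7 : ℝ) * x) * (n : ℝ) ^ (4/7 : ℝ)) := by ring
        _ ≤ 3/8 * ((K:ℝ) ^ (3/7 : ℝ) * (n : ℝ) ^ (4/7 : ℝ)) := by gcongr
  have h1 := (measureReal_mono (μ := perc) hsub).trans (measureReal_union_le _ _)
  -- numbers
  have h2 : 90 * Real.exp (-((K:ℝ) / l) ^ (8 : ℕ)) ≤ 1/2 * Real.exp (-(K2 * K)) := by
    have h3 : 2 * (K2 * K) ≤ ((K:ℝ) / l) ^ (8 : ℕ) := by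
      rw [div_pow, le_div_iff₀ hl8]
      have h4 : 2 * K2 * l ^ 8 ≤ K := by
        have : 2 * K2 * l ^ 8 + 1 ≤ K0 := by
          rw [hK0]
          have : 0 ≤ 2 * K2 * l ^ 8 + 1 := by positivity
          linarith
        linarith
      have h5 : (K:ℝ) * K ≤ (K:ℝ) ^ 8 := by
        calc (K:ℝ) * K = (K:ℝ) ^ 2 := by ring
          _ ≤ (K:ℝ) ^ 8 := pow_le_pow_right₀ (by linarith) (by norm_num)
      nlinarith
    have h6 : Real.exp (-((K:ℝ) / l) ^ (8 : ℕ)) ≤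
        Real.exp (-(K2 * K)) * Real.exp (-(K2 * K)) := by
      rw [← Real.exp_add]
      exact Real.exp_le_exp.2 (by linarith)
    have h7 : 90 * Real.exp (-(K2 * K)) ≤ 1/2 := by
      have h8 : Real.exp (-(K2 * K)) ≤ 1 / 200 := by
        rw [Real.exp_neg, ← one_div]
        refine one_div_le_one_div_of_le (by norm_num) ?_
        have := Real.add_one_le_exp (K2 * (K:ℝ))
        nlinarith
      linarith
    have h9 := Real.exp_pos (-(K2 * (K:ℝ)))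
    nlinarith
  have h3 : 1/2 * Real.exp (-(K2 * K)) ≤
      perc.real {ω | x * (n : ℝ) ^ (4/7 : ℝ) ≤ reach n ω} := by linarith
  refine le_trans ?_ h3
  have h4 : Real.exp (-(K:ℝ)) ≤ 1/2 := by
    rw [Real.exp_neg, ← one_div]
    refine one_div_le_one_div_of_le (by norm_num) ?_
    have := Real.add_one_le_exp (K:ℝ)
    linarith
  calc Real.exp (-(2 * D * (K2 + 1) * x ^ (7/3 : ℝ))) ≤ Real.exp (-(K2 * K) + -(K:ℝ)) := by
        refine Real.exp_le_exp.2 ?_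
        have : (K2 + 1) * K ≤ (K2 + 1) * (2 * D * x ^ (7/3 : ℝ)) :=
          mul_le_mul_of_nonneg_left hKu (by linarith)
        linarith
    _ = Real.exp (-(K2 * K)) * Real.exp (-(K:ℝ)) := Real.exp_add _ _
    _ ≤ Real.exp (-(K2 * K)) * (1/2) := mul_le_mul_of_nonneg_left h4 (Real.exp_pos _).le
    _ = _ := by ring

/-- Upper bound for the lower tail. -/
theorem low_up {C : ℝ} (hC : 0 < C) (hU : TwoUp C (1/4)) : ∃ b : ℝ, 0 < b ∧
    ∀ (n : ℕ) (x : ℝ), 1 ≤ n → 0 < x →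
      perc.real {ω | reach n ω ≤ (n : ℝ) ^ (4/7 : ℝ) / x} ≤ 9 * Real.exp (-(b * x ^ (14 : ℕ))) := by
  obtain ⟨l, hl, h⟩ := reach_tail hC hU
  refine ⟨1 / (20 ^ (14 : ℕ) * l ^ 8), by positivity, fun n x hn hx => ?_⟩
  have hn0 : (1:ℝ) ≤ n := by exact_mod_cast hn
  rcases lt_or_ge ((n : ℝ) ^ (4/7 : ℝ) / x) (1/3) with hsm | hbig
  · have e : {ω : Conf | reach n ω ≤ (n : ℝ) ^ (4/7 : ℝ) / x} = ∅ := by
      rw [Set.eq_empty_iff_forall_notMem]
      intro ω hω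
      have h1 := TailLow_start n ω
      have h2 : reach n ω ≤ (n : ℝ) ^ (4/7 : ℝ) / x := hω
      linarith
    rw [e, measureReal_empty]
    positivity
  · have h1 := h n ((n : ℝ) ^ (4/7 : ℝ) / x) ((x / 20) ^ (7/4 : ℝ)) hbig (by positivity)
      (le_of_eq ?_)
    · refine h1.trans (mul_le_mul_of_nonneg_left (Real.exp_le_exp.2 ?_) (by norm_num))
      rw [neg_le_neg_iff]
      refine le_of_eq ?_
      rw [div_pow, ← Real.rpow_natCast ((x / 20) ^ (7/4 : ℝ)) 8, rp (by positivity)]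
      have e2 : (7/4 * ((8:ℕ):ℝ) : ℝ) = ((14:ℕ):ℝ) := by norm_num
      rw [e2, Real.rpow_natCast, div_pow]
      field_simp
    · rw [← Real.mul_rpow (by positivity) (by positivity)]
      have e1 : x / 20 * (20 * ((n : ℝ) ^ (4/7 : ℝ) / x)) = (n : ℝ) ^ (4/7 : ℝ) := by
        field_simp
      rw [e1, rp (by positivity)]
      norm_num

/-- Lower bound for the lower tail. -/
theorem low_low {c C : ℝ} (hc : 0 < c) (hC : 0 < C) (hL : LowA c (1/4)) (hU : TwoUp C (1/4)) :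
    ∃ c' B : ℝ, 0 < c' ∧ 0 < B ∧
    ∀ (n : ℕ) (x : ℝ), 1 ≤ n → 1 ≤ x → x ≤ c' * (n : ℝ) ^ (1/14 : ℝ) →
      Real.exp (-(B * x ^ (14 : ℕ))) ≤
        perc.real {ω | reach n ω ≤ (n : ℝ) ^ (4/7 : ℝ) / x} := by
  obtain ⟨c1, K1, hc1, hK1, hpr⟩ := slow_pr hc hL hC hU
  -- ratio `b / a ≥ M = D x ^ 7`
  obtain ⟨D, hD⟩ : ∃ D : ℝ, D = 200 + (4 * 14 ^ 2 / c1) ^ 4 := ⟨_, rfl⟩
  have hD200 : 200 ≤ D := by rw [hD]; have : 0 ≤ (4 * 14 ^ 2 / c1) ^ 4 := by positivity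
                             linarith
  have hDc : (4 * 14 ^ 2 / c1) ^ 4 ≤ D := by rw [hD]; linarith
  obtain ⟨c', hc'⟩ : ∃ c' : ℝ, c' = (1 / (14 * D)) ^ (1/8 : ℝ) := ⟨_, rfl⟩
  have hc'0 : 0 < c' := by rw [hc']; positivity
  refine ⟨c', K1 * (4 * D ^ 2), hc'0, by positivity, fun n x hn hx hxn => ?_⟩
  have hn0 : (1:ℝ) ≤ n := by exact_mod_cast hn
  have hx0 : 0 < x := by linarith
  have hx7 : 1 ≤ x ^ 7 := one_le_pow₀ hx
  -- size of the box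
  have hkey : 14 * D * x ^ 8 ≤ (n : ℝ) ^ (4/7 : ℝ) := by
    have h1 : x ^ 8 ≤ (c' * (n : ℝ) ^ (1/14 : ℝ)) ^ 8 := pow_le_pow_left₀ hx0.le hxn 8
    have h2 : (c' * (n : ℝ) ^ (1/14 : ℝ)) ^ 8 = 1 / (14 * D) * (n : ℝ) ^ (4/7 : ℝ) := by
      rw [mul_pow, hc', ← Real.rpow_natCast ((1 / (14 * D)) ^ (1/8 : ℝ)) 8, rp (by positivity),
        ← Real.rpow_natCast ((n : ℝ) ^ (1/14 : ℝ)) 8, rp (by positivity)]
      norm_num
    rw [h2] at h1
    calc 14 * D * x ^ 8 ≤ 14 * D * (1 / (14 * D) * (n : ℝ) ^ (4/7 : ℝ)) :=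
          mul_le_mul_of_nonneg_left h1 (by positivity)
      _ = _ := by field_simp
  obtain ⟨y, hy⟩ : ∃ y : ℝ, y = (n : ℝ) ^ (4/7 : ℝ) / (7 * x) := ⟨_, rfl⟩
  have hy1 : 2 * D * x ^ 7 ≤ y := by
    rw [hy, le_div_iff₀ (by positivity)]
    calc 2 * D * x ^ 7 * (7 * x) = 14 * D * x ^ 8 := by ring
      _ ≤ _ := hkey
  obtain ⟨b, hb⟩ : ∃ b : ℕ, b = ⌊y⌋₊ := ⟨_, rfl⟩
  have hy2 : 2 ≤ y := by nlinarith
  have hbu : (b:ℝ) ≤ y := by rw [hb]; exact Nat.floor_le (by linarith)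
  have hbl : y / 2 ≤ b := by
    have : y < b + 1 := by rw [hb]; exact Nat.lt_floor_add_one _
    linarith
  have hbD : D * x ^ 7 ≤ b := by linarith
  have hb0 : (0:ℝ) < b := by
    have : 0 < D * x ^ 7 := by positivity
    linarith
  obtain ⟨a, ha⟩ : ∃ a : ℕ, a = ⌊(b:ℝ) / (D * x ^ 7)⌋₊ := ⟨_, rfl⟩
  have hq1 : 1 ≤ (b:ℝ) / (D * x ^ 7) := by
    rw [le_div_iff₀ (by positivity)]; linarith
  have ha1 : 1 ≤ a := by rw [ha]; exact Nat.one_le_floor_iff _ |>.mpr hq1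
  have ha1r : (1:ℝ) ≤ a := by exact_mod_cast ha1
  have ha0 : (0:ℝ) < a := by linarith
  have hau : (a:ℝ) ≤ b / (D * x ^ 7) := by rw [ha]; exact Nat.floor_le (by linarith)
  have hal : (b:ℝ) / (D * x ^ 7) / 2 ≤ a := by
    have : (b:ℝ) / (D * x ^ 7) < a + 1 := by rw [ha]; exact Nat.lt_floor_add_one _
    linarith
  have hDx : (0:ℝ) < D * x ^ 7 := by positivity
  have hau2 : D * x ^ 7 * a ≤ b := by
    rw [le_div_iff₀ hDx] at hau
    linarith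
  have hab : 100 * a ≤ b := by
    have h1 : (100:ℝ) ≤ D * x ^ 7 := by nlinarith
    have h2 := mul_le_mul_of_nonneg_right h1 ha0.le
    have : (100:ℝ) * a ≤ b := by linarith
    exact_mod_cast this
  have hrat : (b:ℝ) / a ≤ 2 * (D * x ^ 7) := by
    rw [div_le_iff₀ ha0]
    rw [div_div, div_le_iff₀ (by positivity)] at hal
    linarith
  -- the probability
  obtain ⟨ρ, hρ⟩ : ∃ ρ : ℤ, ρ = 4 * (b : ℤ) := ⟨_, rfl⟩
  have hs : An (b : ℤ) (3 * b) ⊆ (bx ρ).edges := by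
    refine an_sub ?_ ?_
    · rw [hρ]
    · rw [hρ]; have : (0:ℤ) ≤ b := by positivity
      linarith
  have hP1 : Real.exp (-(K1 * ((b : ℝ) / a) ^ 2)) ≤
      perc.real {ω | Slow c1 b a (cut ω ρ ∩ An (b : ℤ) (3 * b))} := by
    rw [perc_an hs]
    exact hpr a b ha1 hab
  have hsub : {ω | Slow c1 b a (cut ω ρ ∩ An (b : ℤ) (3 * b))} ⊆
      {ω | reach n ω ≤ (n : ℝ) ^ (4/7 : ℝ) / x} := by
    intro ω hω
    obtain ⟨T, t1, t2, t3, t4⟩ := slow_det ha1 hab (shw_cut hs) hω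
    have hnT : n ≤ T := by
      -- `c1 b² a ^ (-1/4) ≥ 4 n`
      have e1 : (D * x ^ 7) ^ (1/4 : ℝ) * (b:ℝ) ^ (-(1/4) : ℝ) ≤ (a : ℝ) ^ (-(1/4) : ℝ) := by
        have g1 : (a:ℝ) ^ (1/4 : ℝ) ≤ ((b:ℝ) / (D * x ^ 7)) ^ (1/4 : ℝ) :=
          Real.rpow_le_rpow ha0.le hau (by norm_num)
        rw [Real.div_rpow hb0.le hDx.le, le_div_iff₀ (by positivity)] at g1
        rw [Real.rpow_neg ha0.le, Real.rpow_neg hb0.le, ← div_eq_mul_inv, ← one_div,
          div_le_div_iff₀ (by positivity) (by positivity)]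
        linarith
      have e2 : 4 * 14 ^ 2 / c1 * x ^ (7/4 : ℝ) ≤ (D * x ^ 7) ^ (1/4 : ℝ) := by
        rw [Real.mul_rpow (by positivity) (by positivity)]
        have g1 : 4 * 14 ^ 2 / c1 ≤ D ^ (1/4 : ℝ) := by
          have := Real.rpow_le_rpow (by positivity) hDc (show (0:ℝ) ≤ 1/4 by norm_num)
          rw [← Real.rpow_natCast (4 * 14 ^ 2 / c1) 4, rp (by positivity)] at this
          norm_num at this
          norm_num
          exact this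
        have g2 : (x ^ 7) ^ (1/4 : ℝ) = x ^ (7/4 : ℝ) := by
          rw [← Real.rpow_natCast x 7, rp hx0.le]
          norm_num
        rw [g2]
        exact mul_le_mul_of_nonneg_right g1 (by positivity)
      have e3 : (y / 2) ^ (7/4 : ℝ) ≤ (b:ℝ) ^ (7/4 : ℝ) :=
        Real.rpow_le_rpow (by linarith) hbl (by norm_num)
      have e4 : (n:ℝ) / (14 ^ 2 * x ^ (7/4 : ℝ)) ≤ (y / 2) ^ (7/4 : ℝ) := by
        have g1 : y / 2 = (n : ℝ) ^ (4/7 : ℝ) / (14 * x) := by rw [hy]; field_simp; norm_num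
        rw [g1, Real.div_rpow (by positivity) (by positivity), rp (by positivity),
          Real.mul_rpow (by norm_num) hx0.le]
        have g2 : (4/7 * (7/4) : ℝ) = 1 := by norm_num
        rw [g2, Real.rpow_one]
        have g3 : (14:ℝ) ^ (7/4 : ℝ) ≤ 14 ^ 2 := by
          rw [← Real.rpow_natCast (14:ℝ) 2]
          exact Real.rpow_le_rpow_of_exponent_le (by norm_num) (by norm_num)
        refine div_le_div_of_nonneg_left (by positivity) (by positivity) ?_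
        exact mul_le_mul_of_nonneg_right g3 (by positivity)
      have e5 : (b:ℝ) ^ 2 * (b:ℝ) ^ (-(1/4) : ℝ) = (b:ℝ) ^ (7/4 : ℝ) := by
        rw [← Real.rpow_natCast (b:ℝ) 2, ← Real.rpow_add hb0]
        norm_num
      have hxp : (0:ℝ) < x ^ (7/4 : ℝ) := by positivity
      have e6 : 4 * (n:ℝ) ≤ c1 * ((b : ℝ) ^ 2 * (a : ℝ) ^ (-(1/4) : ℝ)) := by
        calc 4 * (n:ℝ) = c1 * ((4 * 14 ^ 2 / c1 * x ^ (7/4 : ℝ)) *
              (n / (14 ^ 2 * x ^ (7/4 : ℝ)))) := by field_simp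
          _ ≤ c1 * ((D * x ^ 7) ^ (1/4 : ℝ) * (b:ℝ) ^ (7/4 : ℝ)) := by
              refine mul_le_mul_of_nonneg_left ?_ hc1.le
              exact mul_le_mul e2 (e4.trans e3) (by positivity) (by positivity)
          _ = c1 * ((b : ℝ) ^ 2 * ((D * x ^ 7) ^ (1/4 : ℝ) * (b:ℝ) ^ (-(1/4) : ℝ))) := by
              rw [← e5]; ring
          _ ≤ _ := by gcongr
      have e7 : (n:ℝ) ≤ T := by linarith
      exact_mod_cast e7
    show reach n ω ≤ (n : ℝ) ^ (4/7 : ℝ) / x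
    refine (reach_mono ω hnT).trans (t3.trans ?_)
    calc (7:ℝ) * b ≤ 7 * y := by linarith
      _ = (n : ℝ) ^ (4/7 : ℝ) / x := by rw [hy]; field_simp
  refine le_trans ?_ (hP1.trans (measureReal_mono hsub))
  refine Real.exp_le_exp.2 (neg_le_neg ?_)
  calc K1 * ((b : ℝ) / a) ^ 2 ≤ K1 * (2 * (D * x ^ 7)) ^ 2 := by
        refine mul_le_mul_of_nonneg_left ?_ hK1.le
        exact pow_le_pow_left₀ (by positivity) hrat 2
    _ = K1 * (4 * D ^ 2) * x ^ (14 : ℕ) := by ring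

/-- norm of the rescaled path -/
theorem curve_norm {n : ℕ} (hn : 1 ≤ n) (ω : Conf) :
    ‖curve n ω‖ = (n : ℝ) ^ (-(4/7) : ℝ) * reach n ω := by
  have hδ : (0:ℝ) ≤ (n : ℝ) ^ (-(4/7) : ℝ) := by positivity
  have hnode : ∀ k ≤ n, ‖(((n : ℝ) ^ (-(4/7) : ℝ) : ℝ) : ℂ) * gam ω k‖ ≤
      (n : ℝ) ^ (-(4/7) : ℝ) * reach n ω := by
    intro k hk
    rw [norm_mul, Complex.norm_real, Real.norm_eq_abs, abs_of_nonneg hδ]
    exact mul_le_mul_of_nonneg_left ((norm_gam_le k ω).trans (reach_mono ω hk)) hδ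
  apply le_antisymm
  · rw [ContinuousMap.norm_le _ (mul_nonneg hδ (reach_pos n ω).le)]
    intro s
    obtain ⟨k, hk, h1, h2⟩ := H984N.pl_exists_seg (show 0 < n by omega) s
    unfold curve
    rw [H984N.pl_seg hk h1 h2]
    obtain ⟨z, hz⟩ : ∃ z : ℝ, z = (s : ℝ) * n - k := ⟨_, rfl⟩
    rw [← hz]
    have hz0 : 0 ≤ z := by rw [hz]; linarith
    have hz1 : z ≤ 1 := by rw [hz]; linarith
    obtain ⟨u, hu⟩ : ∃ u : ℂ, u = (((n : ℝ) ^ (-(4/7) : ℝ) : ℝ) : ℂ) * gam ω k := ⟨_, rfl⟩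
    obtain ⟨v, hv⟩ : ∃ v : ℂ, v = (((n : ℝ) ^ (-(4/7) : ℝ) : ℝ) : ℂ) * gam ω (k + 1) := ⟨_, rfl⟩
    have hu' := hnode k hk.le
    have hv' := hnode (k + 1) hk
    rw [← hu] at hu'
    rw [← hv] at hv'
    rw [← hu, ← hv]
    have e : u + (z : ℂ) * (v - u) = ((1 - z : ℝ) : ℂ) * u + (z : ℂ) * v := by
      push_cast; ring
    rw [e]
    refine (norm_add_le _ _).trans ?_
    rw [norm_mul, norm_mul, Complex.norm_real, Complex.norm_real, Real.norm_eq_abs,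
      Real.norm_eq_abs, abs_of_nonneg hz0, abs_of_nonneg (by linarith)]
    have g1 := mul_le_mul_of_nonneg_left hu' (show 0 ≤ 1 - z by linarith)
    have g2 := mul_le_mul_of_nonneg_left hv' hz0
    linarith
  · obtain ⟨k, hk, h1⟩ := Disp_exists_reach ω n
    have h2 := EnC_node hn ω hk
    rw [norm_mul, Complex.norm_real, Real.norm_eq_abs, abs_of_nonneg hδ, h1] at h2
    exact h2

theorem norm_iff_ge {n : ℕ} (hn : 1 ≤ n) (ω : Conf) (x : ℝ) :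
    x ≤ ‖curve n ω‖ ↔ x * (n : ℝ) ^ (4/7 : ℝ) ≤ reach n ω := by
  have hn0 : (0:ℝ) < n := by exact_mod_cast hn
  have hp : (0:ℝ) < (n : ℝ) ^ (4/7 : ℝ) := by positivity
  rw [curve_norm hn, Real.rpow_neg hn0.le, ← le_div_iff₀ hp, mul_comm, ← div_eq_mul_inv]

theorem norm_iff_le {n : ℕ} (hn : 1 ≤ n) (ω : Conf) (x : ℝ) :
    ‖curve n ω‖ ≤ x ↔ reach n ω ≤ (n : ℝ) ^ (4/7 : ℝ) * x := by
  have hn0 : (0:ℝ) < n := by exact_mod_cast hn
  have hp : (0:ℝ) < (n : ℝ) ^ (4/7 : ℝ) := by positivity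
  rw [curve_norm hn, Real.rpow_neg hn0.le, mul_comm, ← div_eq_mul_inv, div_le_iff₀ hp, mul_comm x]

/-- limits: closed sets -/
theorem lim_closed {φ : ℕ → ℕ} (hφ : Tendsto φ atTop atTop)
    {μ : ProbabilityMeasure C(unitInterval, ℂ)}
    (hμ : Tendsto (fun i => lawH (φ i)) atTop (𝓝 μ)) {G : Set C(unitInterval, ℂ)}
    (hG : IsClosed G) {r : ℝ} {n0 : ℕ} (h : ∀ n : ℕ, n0 ≤ n → r ≤ perc.real {ω | curve n ω ∈ G}) :
    ENNReal.ofReal r ≤ (μ : Measure C(unitInterval, ℂ)) G := by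
  have h1 := ProbabilityMeasure.limsup_measure_closed_le_of_tendsto hμ hG
  refine le_trans ?_ h1
  refine le_limsup_of_frequently_le' ?_
  refine Eventually.frequently ?_
  filter_upwards [hφ.eventually (eventually_ge_atTop n0)] with i hi
  rw [lawH_apply _ hG.measurableSet]
  exact ENNReal.ofReal_le_ofReal (h _ hi)

/-- limits: open sets -/
theorem lim_open {φ : ℕ → ℕ} (hφ : Tendsto φ atTop atTop)
    {μ : ProbabilityMeasure C(unitInterval, ℂ)}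
    (hμ : Tendsto (fun i => lawH (φ i)) atTop (𝓝 μ)) {G : Set C(unitInterval, ℂ)}
    (hG : IsOpen G) {r : ℝ} {n0 : ℕ} (h : ∀ n : ℕ, n0 ≤ n → perc.real {ω | curve n ω ∈ G} ≤ r) :
    (μ : Measure C(unitInterval, ℂ)) G ≤ ENNReal.ofReal r := by
  have h1 := limit_closedC hμ (G := Gᶜ) hG.isClosed_compl (ε := r) (by
    filter_upwards [hφ.eventually (eventually_ge_atTop n0)] with i hi
    rw [compl_compl, lawH_apply _ hG.measurableSet]
    exact ENNReal.ofReal_le_ofReal (h _ hi))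
  rwa [compl_compl] at h1

end Pool.Agent.R965.HT
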