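import Pool.Agent.R965.HT.Tails
import Pool.Agent.H984R3.Per.UpPi
import Pool.Agent.H984R3.Per.LowEV
import Pool.Agent.H985R3.TA.Main
import Pool.Agent.H985R3.TA.STA

/-!
Exact tails of the displacement of the half-plane exploration path and of its scaling limits.
-/

set_option autoImplicit false

namespace Pool.Agent.R965.HT

open H974 Finset H342P H984P H984H MeasureTheory Filter Topology TH992.T TH992.L

/-- The two-arm bounds. -/
theorem inputs : (∃ c : ℝ, 0 < c ∧ H984P.LowA c (1/4)) ∧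
    (∃ C : ℝ, 0 < C ∧ H342P.TwoUp C (1/4)) ∧ (∃ C : ℝ, 0 < C ∧ AnnUp C) := by
  refine ⟨?_, ?_, ?_⟩
  · obtain ⟨B, m0, κ, hκ, h⟩ := H985T.EV_lower
    obtain ⟨c, hc, h2⟩ := H984P.lowA_of_EV (B := B) (m0 := m0) (s := 1/4) hκ (by norm_num)
      (fun m hm => by
        obtain ⟨ρ, c, s, c', f0, h1, h2, h3⟩ := h m hm
        exact ⟨ρ, c, s, c', f0, h2, h1, h3⟩)
    exact ⟨c, hc, h2⟩
  · obtain ⟨C, hC, h⟩ := H985T.pi2_upper
    exact ⟨C, hC, H984P.twoUp_of_pi2 hC (by norm_num) h⟩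
  · obtain ⟨C, hC, h⟩ := H985T.st_A
    exact ⟨C, hC, fun r R hr hR c1 c2 S => h r R hr hR c1 c2 S⟩

theorem tight : ∀ φ : ℕ → ℕ, Tendsto φ atTop atTop → ∃ ψ : ℕ → ℕ, StrictMono ψ ∧
      ∃ μ : ProbabilityMeasure C(unitInterval, ℂ),
        Tendsto (fun i => lawH (φ (ψ i))) atTop (𝓝 μ) := by
  obtain ⟨⟨c, hc, hL⟩, ⟨C, hC, hU⟩, C2, hC2, hA⟩ := inputs
  obtain ⟨-, -, -, h4, -⟩ := finalH hc hC hL hU hC2 hA
  exact h4

/-- large displacements -/
theorem large : ∃ a A c : ℝ, 0 < a ∧ 0 < A ∧ 0 < c ∧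
    (∀ (n : ℕ) (x : ℝ), 1 ≤ n → 0 < x →
      perc.real {ω | x * (n : ℝ) ^ (4/7 : ℝ) ≤ reach n ω} ≤ A * Real.exp (-(a * x ^ (7/3 : ℝ)))) ∧
    (∀ (n : ℕ) (x : ℝ), 1 ≤ n → 1 ≤ x → x ≤ c * (n : ℝ) ^ (3/7 : ℝ) →
      Real.exp (-(A * x ^ (7/3 : ℝ))) ≤ perc.real {ω | x * (n : ℝ) ^ (4/7 : ℝ) ≤ reach n ω}) ∧
    (∀ φ : ℕ → ℕ, Tendsto φ atTop atTop → ∀ μ : ProbabilityMeasure C(unitInterval, ℂ),
      Tendsto (fun i => lawH (φ i)) atTop (𝓝 μ) → ∀ x : ℝ, 1 ≤ x →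
        ENNReal.ofReal (Real.exp (-(A * x ^ (7/3 : ℝ)))) ≤
          (μ : Measure C(unitInterval, ℂ)) {f | x ≤ ‖f‖} ∧
        (μ : Measure C(unitInterval, ℂ)) {f | x ≤ ‖f‖} ≤
          ENNReal.ofReal (A * Real.exp (-(a * x ^ (7/3 : ℝ))))) := by
  obtain ⟨⟨c0, hc0, hL⟩, ⟨C0, hC0, hU⟩, -⟩ := inputs
  obtain ⟨a, A, ha, hA, hup⟩ := up_tail hc0 hC0 hL hU
  obtain ⟨c, B, hc, hB, hlow⟩ := up_low hC0 hU
  have h2 : (0:ℝ) < (1/2:ℝ) ^ (7/3 : ℝ) := by positivity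
  have h21 : (1/2:ℝ) ^ (7/3 : ℝ) ≤ 1 := Real.rpow_le_one (by norm_num) (by norm_num) (by norm_num)
  have hBm : B ≤ max A B := le_max_right _ _
  have hAm : A ≤ max A B := le_max_left _ _
  refine ⟨a * (1/2:ℝ) ^ (7/3 : ℝ), max A B, c, by positivity, lt_max_of_lt_left hA, hc, ?_, ?_, ?_⟩
  · intro n x hn hx
    refine (hup n x hn hx).trans ?_
    have h3 : 0 ≤ x ^ (7/3 : ℝ) := by positivity
    have h4 : a * (1/2:ℝ) ^ (7/3 : ℝ) * x ^ (7/3 : ℝ) ≤ a * x ^ (7/3 : ℝ) := by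
      refine mul_le_mul_of_nonneg_right ?_ h3
      nlinarith
    have h5 : Real.exp (-(a * x ^ (7/3 : ℝ))) ≤
        Real.exp (-(a * (1/2:ℝ) ^ (7/3 : ℝ) * x ^ (7/3 : ℝ))) := Real.exp_le_exp.mpr (by linarith)
    exact mul_le_mul hAm h5 (Real.exp_pos _).le (hA.le.trans hAm)
  · intro n x hn hx hxn
    refine le_trans (Real.exp_le_exp.mpr ?_) (hlow n x hn hx hxn)
    have h3 : 0 ≤ x ^ (7/3 : ℝ) := by positivity
    nlinarith [mul_le_mul_of_nonneg_right hBm h3]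
  · intro φ hφ μ hμ x hx
    have hx0 : 0 < x := by linarith
    have h3 : 0 ≤ x ^ (7/3 : ℝ) := by positivity
    constructor
    · have hcl : IsClosed {f : C(unitInterval, ℂ) | x ≤ ‖f‖} :=
        isClosed_le continuous_const continuous_norm
      have htend : Tendsto (fun n : ℕ => c * (n : ℝ) ^ (3/7 : ℝ)) atTop atTop :=
        Tendsto.const_mul_atTop hc ((tendsto_rpow_atTop (by norm_num)).comp
          tendsto_natCast_atTop_atTop)
      obtain ⟨n0, hn0⟩ := eventually_atTop.mp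
        ((htend.eventually (eventually_ge_atTop x)).and (eventually_ge_atTop 1))
      refine lim_closed hφ hμ hcl (n0 := n0) fun n hn => ?_
      obtain ⟨g1, g2⟩ := hn0 n hn
      have e : {ω : Conf | curve n ω ∈ {f : C(unitInterval, ℂ) | x ≤ ‖f‖}} =
          {ω : Conf | x * (n : ℝ) ^ (4/7 : ℝ) ≤ reach n ω} := by
        ext ω
        exact norm_iff_ge g2 ω x
      rw [e]
      refine le_trans (Real.exp_le_exp.mpr ?_) (hlow n x g2 hx g1)
      nlinarith [mul_le_mul_of_nonneg_right hBm h3]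
    · have hop : IsOpen {f : C(unitInterval, ℂ) | x / 2 < ‖f‖} :=
        isOpen_lt continuous_const continuous_norm
      have hsub : {f : C(unitInterval, ℂ) | x ≤ ‖f‖} ⊆ {f : C(unitInterval, ℂ) | x / 2 < ‖f‖} := by
        intro f hf
        have : x ≤ ‖f‖ := hf
        show x / 2 < ‖f‖
        linarith
      refine (measure_mono hsub).trans ?_
      refine lim_open hφ hμ hop (n0 := 1) fun n hn => ?_
      have e : {ω : Conf | curve n ω ∈ {f : C(unitInterval, ℂ) | x / 2 < ‖f‖}} ⊆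
          {ω : Conf | x / 2 * (n : ℝ) ^ (4/7 : ℝ) ≤ reach n ω} := by
        intro ω hω
        have h5 : x / 2 < ‖curve n ω‖ := hω
        exact (norm_iff_ge hn ω (x / 2)).mp h5.le
      refine (measureReal_mono e).trans ?_
      refine (hup n (x / 2) hn (by positivity)).trans ?_
      have e2 : (x / 2) ^ (7/3 : ℝ) = (1/2:ℝ) ^ (7/3 : ℝ) * x ^ (7/3 : ℝ) := by
        rw [← Real.mul_rpow (by norm_num) hx0.le]
        congr 1
        ring
      rw [e2, ← mul_assoc]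
      exact mul_le_mul_of_nonneg_right hAm (Real.exp_pos _).le

/-- small displacements -/
theorem small : ∃ a A c : ℝ, 0 < a ∧ 0 < A ∧ 0 < c ∧
    (∀ (n : ℕ) (x : ℝ), 1 ≤ n → 0 < x →
      perc.real {ω | reach n ω ≤ (n : ℝ) ^ (4/7 : ℝ) / x} ≤
        A * Real.exp (-(a * x ^ (14 : ℕ)))) ∧
    (∀ (n : ℕ) (x : ℝ), 1 ≤ n → 1 ≤ x → x ≤ c * (n : ℝ) ^ (1/14 : ℝ) →
      Real.exp (-(A * x ^ (14 : ℕ))) ≤ perc.real {ω | reach n ω ≤ (n : ℝ) ^ (4/7 : ℝ) / x}) ∧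
    (∀ φ : ℕ → ℕ, Tendsto φ atTop atTop → ∀ μ : ProbabilityMeasure C(unitInterval, ℂ),
      Tendsto (fun i => lawH (φ i)) atTop (𝓝 μ) → ∀ x : ℝ, 1 ≤ x →
        ENNReal.ofReal (Real.exp (-(A * x ^ (14 : ℕ)))) ≤
          (μ : Measure C(unitInterval, ℂ)) {f | ‖f‖ ≤ 1 / x} ∧
        (μ : Measure C(unitInterval, ℂ)) {f | ‖f‖ ≤ 1 / x} ≤
          ENNReal.ofReal (A * Real.exp (-(a * x ^ (14 : ℕ))))) := by
  obtain ⟨⟨c0, hc0, hL⟩, ⟨C0, hC0, hU⟩, -⟩ := inputs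
  obtain ⟨a, ha, hup⟩ := low_up hC0 hU
  obtain ⟨c, B, hc, hB, hlow⟩ := low_low hc0 hC0 hL hU
  have hBm : B ≤ max 9 B := le_max_right _ _
  have hAm : (9:ℝ) ≤ max 9 B := le_max_left _ _
  refine ⟨a / 2 ^ (14:ℕ), max 9 B, c, by positivity, lt_max_of_lt_left (by norm_num), hc, ?_, ?_, ?_⟩
  · intro n x hn hx
    refine (hup n x hn hx).trans ?_
    have h3 : 0 ≤ x ^ (14 : ℕ) := by positivity
    have h4 : a / 2 ^ (14:ℕ) * x ^ (14 : ℕ) ≤ a * x ^ (14 : ℕ) := by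
      refine mul_le_mul_of_nonneg_right ?_ h3
      exact div_le_self ha.le (by norm_num)
    have h5 : Real.exp (-(a * x ^ (14 : ℕ))) ≤
        Real.exp (-(a / 2 ^ (14:ℕ) * x ^ (14 : ℕ))) := Real.exp_le_exp.mpr (by linarith)
    exact mul_le_mul hAm h5 (Real.exp_pos _).le (by linarith)
  · intro n x hn hx hxn
    refine le_trans (Real.exp_le_exp.mpr ?_) (hlow n x hn hx hxn)
    have h3 : 0 ≤ x ^ (14 : ℕ) := by positivity
    nlinarith [mul_le_mul_of_nonneg_right hBm h3]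
  · intro φ hφ μ hμ x hx
    have hx0 : 0 < x := by linarith
    have h3 : 0 ≤ x ^ (14 : ℕ) := by positivity
    constructor
    · have hcl : IsClosed {f : C(unitInterval, ℂ) | ‖f‖ ≤ 1 / x} :=
        isClosed_le continuous_norm continuous_const
      have htend : Tendsto (fun n : ℕ => c * (n : ℝ) ^ (1/14 : ℝ)) atTop atTop :=
        Tendsto.const_mul_atTop hc ((tendsto_rpow_atTop (by norm_num)).comp
          tendsto_natCast_atTop_atTop)
      obtain ⟨n0, hn0⟩ := eventually_atTop.mp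
        ((htend.eventually (eventually_ge_atTop x)).and (eventually_ge_atTop 1))
      refine lim_closed hφ hμ hcl (n0 := n0) fun n hn => ?_
      obtain ⟨g1, g2⟩ := hn0 n hn
      have e : {ω : Conf | curve n ω ∈ {f : C(unitInterval, ℂ) | ‖f‖ ≤ 1 / x}} =
          {ω : Conf | reach n ω ≤ (n : ℝ) ^ (4/7 : ℝ) / x} := by
        ext ω
        refine (norm_iff_le g2 ω (1 / x)).trans ?_
        rw [mul_one_div]
        rfl
      rw [e]
      refine le_trans (Real.exp_le_exp.mpr ?_) (hlow n x g2 hx g1)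
      nlinarith [mul_le_mul_of_nonneg_right hBm h3]
    · have hop : IsOpen {f : C(unitInterval, ℂ) | ‖f‖ < 2 / x} :=
        isOpen_lt continuous_norm continuous_const
      have hsub : {f : C(unitInterval, ℂ) | ‖f‖ ≤ 1 / x} ⊆
          {f : C(unitInterval, ℂ) | ‖f‖ < 2 / x} := by
        intro f hf
        have h4 : ‖f‖ ≤ 1 / x := hf
        have h5 : 1 / x < 2 / x := by gcongr; norm_num
        exact lt_of_le_of_lt h4 h5
      refine (measure_mono hsub).trans ?_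
      refine lim_open hφ hμ hop (n0 := 1) fun n hn => ?_
      have e : {ω : Conf | curve n ω ∈ {f : C(unitInterval, ℂ) | ‖f‖ < 2 / x}} ⊆
          {ω : Conf | reach n ω ≤ (n : ℝ) ^ (4/7 : ℝ) / (x / 2)} := by
        intro ω hω
        have h5 : ‖curve n ω‖ < 2 / x := hω
        have h6 := (norm_iff_le hn ω (2 / x)).mp h5.le
        have e3 : (n : ℝ) ^ (4/7 : ℝ) / (x / 2) = (n : ℝ) ^ (4/7 : ℝ) * (2 / x) := by
          field_simp
        show reach n ω ≤ (n : ℝ) ^ (4/7 : ℝ) / (x / 2)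
        rw [e3]
        exact h6
      refine (measureReal_mono e).trans ?_
      refine (hup n (x / 2) hn (by positivity)).trans ?_
      have e2 : a * (x / 2) ^ (14 : ℕ) = a / 2 ^ (14:ℕ) * x ^ (14 : ℕ) := by
        rw [div_pow]
        ring
      rw [e2]
      exact mul_le_mul_of_nonneg_right hAm (Real.exp_pos _).le

end Pool.Agent.R965.HT
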